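import Pool.Agent.ZGO.StmtsA

/-!
# ZGO row SEV (MP_c4a8aa_al): finitely many characters are fixed by a subgroup of finite index
-/

set_option autoImplicit false

namespace Pool.Agent.ZGO.H26

open Pool.Agent.ZGO

theorem sev (hC : CntStmt) (hT : ThtStmt) : SevStmt := by
  intro P _ _ d ψ N A B hL htor H hH
  have hfg : Group.FG H := inferInstance
  have hF := (hC P d ψ N A B hL H hH).1
  refine Set.Finite.of_finite_fibers (fun (f : P → QZ) (h : H) => f h) ?_ ?_
  · refine (hT H (fun h => ?_)).subset ?_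
    · have := htor (h : P)
      exact (Submonoid.isOfFinOrder_coe (x := h)).1 this
    · rintro _ ⟨f, hf, rfl⟩ a b
      exact hf.2 a a.2 b
  · rintro _ ⟨f0, hf0, rfl⟩
    refine (hF.image (fun f => f + f0)).subset ?_
    rintro f ⟨hf, hff⟩
    refine ⟨f - f0, ⟨(Xs A B).sub_mem hf.1 hf0.1, fun h hh x => ?_⟩, by simp⟩
    have h1 : f h = f0 h := congrFun hff ⟨h, hh⟩
    have h2 := hf.2 h hh x
    have h3 := hf0.2 h hh x
    simp only [Pi.sub_apply]
    rw [h2, h3, h1]
    abel

end Pool.Agent.ZGO.H26
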